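import Pool.Agent.Helper40.TI.Flow

/-!
The flows of Helper40.TI with the exact mean cost: a vertex with `z` zeros on a batch of `m`
vertices costs `m / 2 - z ^ 2 / (2 m)` on average.
-/

namespace Pool.Agent.Helper83.TI2

open Classical Finset Pool.Agent.Helper40.TI

variable {V : Type*} [Fintype V]

section local_lemma

variable {Y : Finset V} {σ : V → ℤ}

theorem exists_perm_avg2 (h1 : ∀ v, σ v = -1 ∨ σ v = 0 ∨ σ v = 1) (h2 : ∀ v, v ∉ Y → σ v = 0)
    {p z m : ℝ} (hp : 0 < p) (hm : m = 2 * p + z) (hz : 0 ≤ z)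
    (sP : ∑ v, iP σ v = p) (sQ : ∑ v, iQ σ v = p) (sZ : ∑ v, iZ Y σ v = z)
    (hY : (Y.card : ℝ) = m) :
    ∃ w : Equiv.Perm V → ℝ, (∀ π, 0 ≤ w π) ∧ ∑ π, w π = 1 ∧
      (∀ π, 0 < w π → ∀ a, (σ a = 1 → σ (π a) = -1) ∧ (σ a = -1 → π a ∈ Y ∧ σ (π a) ≠ -1) ∧
        (a ∈ Y → σ a = 0 → σ (π a) = 1 ∨ π a = a) ∧ (a ∉ Y → π a = a)) ∧
      (∀ a b, ∑ π, w π * ((pf σ π a b : ℤ) : ℝ) = lin Y σ a b) ∧
      ∑ π, w π * pc σ π = m / 2 - z ^ 2 / (2 * m) := by
  have hm0 : 0 < m := by linarith
  obtain ⟨w, hw0, hw1, hwM⟩ := exists_eq_sum_perm_of_mem_doublyStochastic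
    (bM_mem h1 h2 hp hm hz sP sQ sZ)
  have hent : ∀ a b, ∑ π, w π * (if π a = b then (1 : ℝ) else 0) = bM Y σ p m a b := by
    intro a b
    rw [← hwM, Matrix.sum_apply]
    apply Finset.sum_congr rfl
    intro π _
    rw [Matrix.smul_apply]
    change _ = w π * (π.toPEquiv.toMatrix a b)
    rw [PEquiv.toMatrix_apply]
    congr 1
    simp [Equiv.toPEquiv_apply]
  have hpos : ∀ π, 0 < w π → ∀ a, 0 < bM Y σ p m a (π a) := by
    intro π hπ a
    rw [← hent]
    refine lt_of_lt_of_le hπ ?_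
    have := Finset.single_le_sum (f := fun π' => w π' * (if π' a = π a then (1 : ℝ) else 0))
      (fun π' _ => mul_nonneg (hw0 π') (by split_ifs <;> norm_num)) (Finset.mem_univ π)
    simpa using this
  refine ⟨w, hw0, hw1, ?_, ?_, ?_⟩
  · intro π hπ a
    have hb := hpos π hπ a
    unfold bM at hb
    rcases type_cases h1 h2 a with ⟨s1, y1, c1, c2, c3, c4⟩ | ⟨s1, y1, c1, c2, c3, c4⟩ |
      ⟨s1, y1, c1, c2, c3, c4⟩ | ⟨s1, y1, c1, c2, c3, c4⟩ <;>
    rcases type_cases h1 h2 (π a) with ⟨t1, z1, d1, d2, d3, d4⟩ | ⟨t1, z1, d1, d2, d3, d4⟩ |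
      ⟨t1, z1, d1, d2, d3, d4⟩ | ⟨t1, z1, d1, d2, d3, d4⟩ <;>
    rw [c1, c2, c3, c4, d1, d2, d3] at hb <;>
    (by_cases hfix : π a = a
     · rw [if_pos hfix.symm] at hb
       first
         | (exfalso; norm_num at hb; done)
         | (refine ⟨?_, ?_, ?_, ?_⟩ <;> intros <;> simp_all; done)
     · rw [if_neg (fun h => hfix h.symm)] at hb
       first
         | (exfalso; norm_num at hb; done)
         | (refine ⟨?_, ?_, ?_, ?_⟩ <;> intros <;> simp_all; done))
  · intro a b
    have hA : ∀ a b, ∑ π, w π * (if π a = b ∧ σ a ≠ 1 then (1 : ℝ) else 0) =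
        if σ a ≠ 1 then bM Y σ p m a b else 0 := by
      intro a b
      by_cases h : σ a = 1
      · simp [h]
      · simp only [ne_eq, h, not_false_eq_true, and_true, if_true]
        exact hent a b
    have hpf : ∀ π, ((pf σ π a b : ℤ) : ℝ) = (if π a = b ∧ σ a ≠ 1 then (1 : ℝ) else 0) -
        (if π b = a ∧ σ b ≠ 1 then (1 : ℝ) else 0) := by
      intro π
      unfold pf
      push_cast
      rfl
    simp only [hpf, mul_sub, Finset.sum_sub_distrib]
    rw [hA, hA]
    unfold bM lin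
    rw [hY]
    by_cases hab : a = b
    · subst hab
      simp
    · have hba : ¬ b = a := fun h => hab h.symm
      simp only [hab, hba, if_false]
      rcases type_cases h1 h2 a with ⟨s1, y1, c1, c2, c3, c4⟩ | ⟨s1, y1, c1, c2, c3, c4⟩ |
        ⟨s1, y1, c1, c2, c3, c4⟩ | ⟨s1, y1, c1, c2, c3, c4⟩ <;>
      rcases type_cases h1 h2 b with ⟨t1, z1, d1, d2, d3, d4⟩ | ⟨t1, z1, d1, d2, d3, d4⟩ |
        ⟨t1, z1, d1, d2, d3, d4⟩ | ⟨t1, z1, d1, d2, d3, d4⟩ <;>
      rw [c1, c2, c3, d1, d2, d3] <;>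
      simp [s1, y1, t1, z1] <;> ring
  · have hA : ∀ a, ∑ π, w π * (if σ a ≠ 1 ∧ π a ≠ a then (1 : ℝ) else 0) =
        iQ σ a + iZ Y σ a * (p / m) := by
      intro a
      have e : ∀ π : Equiv.Perm V, (if σ a ≠ 1 ∧ π a ≠ a then (1 : ℝ) else 0) =
          (if σ a ≠ 1 then 1 else 0) * (1 - (if π a = a then (1 : ℝ) else 0)) := by
        intro π
        by_cases c1 : σ a = 1 <;> by_cases c2 : π a = a <;> simp [c1, c2]
      simp only [e]
      have : ∑ π, w π * ((if σ a ≠ 1 then 1 else 0) * (1 - (if π a = a then (1 : ℝ) else 0))) =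
          (if σ a ≠ 1 then 1 else 0) * (∑ π, w π - ∑ π, w π * (if π a = a then (1 : ℝ) else 0)) := by
        rw [← Finset.sum_sub_distrib, Finset.mul_sum]
        apply Finset.sum_congr rfl
        intro π _
        ring
      rw [this, hw1, hent]
      unfold bM
      rw [if_pos rfl]
      rcases type_cases h1 h2 a with ⟨s1, y1, c1, c2, c3, c4⟩ | ⟨s1, y1, c1, c2, c3, c4⟩ |
        ⟨s1, y1, c1, c2, c3, c4⟩ | ⟨s1, y1, c1, c2, c3, c4⟩ <;>
      rw [c1, c2, c3, c4] <;> simp [s1]
    have hsum : ∑ π, w π * pc σ π = p + z * (p / m) := by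
      unfold pc
      simp only [Finset.mul_sum]
      rw [Finset.sum_comm]
      simp only [hA, Finset.sum_add_distrib, ← Finset.sum_mul]
      rw [sQ, sZ]
    rw [hsum]
    have hz' : z = m - 2 * p := by linarith
    rw [hz']
    field_simp
    ring

theorem local_flow2 (h1 : ∀ v, σ v = -1 ∨ σ v = 0 ∨ σ v = 1) (h2 : ∀ v, v ∉ Y → σ v = 0)
    (h0 : ∑ v, σ v = 0) :
    ∃ cb : ℝ, cb ≤ Y.card / 2 - (∑ v, iZ Y σ v) ^ 2 / (2 * Y.card) ∧ ∀ (e : V → V → ℝ) (e0 : ℝ), ∃ (φ : V → V → ℤ) (c : ℝ),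
      (∀ a b, φ a b = - φ b a) ∧ (∀ a b, φ a b ≠ 0 → a ∈ Y ∧ b ∈ Y) ∧
      (∀ b, ∑ a, φ a b = σ b) ∧ (∑ a, ∑ b, ((max (φ a b) 0 : ℤ) : ℝ) ≤ c) ∧
      (∑ a, ∑ b, (e a b + φ a b - lin Y σ a b) ^ 2 + (e0 + c - cb) ^ 2 / Y.card ≤
        ∑ a, ∑ b, (e a b) ^ 2 + e0 ^ 2 / Y.card + 3 * Y.card) := by
  have nP : ∀ v, 0 ≤ iP σ v := fun v => by unfold iP; split_ifs <;> norm_num
  have nQ : ∀ v, 0 ≤ iQ σ v := fun v => by unfold iQ; split_ifs <;> norm_num
  have nZ : ∀ v, 0 ≤ iZ Y σ v := fun v => by unfold iZ; split_ifs <;> norm_num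
  have hPQ : ∑ v, iQ σ v = ∑ v, iP σ v := by
    have e1 : ∀ v, iP σ v - iQ σ v = (σ v : ℝ) := by
      intro v
      unfold iP iQ
      rcases h1 v with h | h | h <;> rw [h] <;> norm_num
    have e2 : ∑ v, (iP σ v - iQ σ v) = 0 := by
      simp only [e1]
      exact_mod_cast h0
    rw [Finset.sum_sub_distrib] at e2
    linarith
  have hcard : (Y.card : ℝ) = 2 * ∑ v, iP σ v + ∑ v, iZ Y σ v := by
    have e1 : ∀ v, iP σ v + iQ σ v + iZ Y σ v = if v ∈ Y then 1 else 0 := by
      intro v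
      rcases type_cases h1 h2 v with ⟨s1, y1, c1, c2, c3, c4⟩ | ⟨s1, y1, c1, c2, c3, c4⟩ |
        ⟨s1, y1, c1, c2, c3, c4⟩ | ⟨s1, y1, c1, c2, c3, c4⟩ <;> rw [c1, c2, c3] <;> simp [y1]
    have e2 : ∑ v, (iP σ v + iQ σ v + iZ Y σ v) = (Y.card : ℝ) := by
      simp only [e1]
      simp
    rw [Finset.sum_add_distrib, Finset.sum_add_distrib, hPQ] at e2
    linarith
  rcases (Finset.sum_nonneg (fun v _ => nP v) : 0 ≤ ∑ v, iP σ v).eq_or_lt with hp | hp
  · -- σ = 0
    have hσ : ∀ v, σ v = 0 := by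
      intro v
      have z1 := (Finset.sum_eq_zero_iff_of_nonneg (fun v _ => nP v)).1 hp.symm v
        (Finset.mem_univ v)
      have z2 := (Finset.sum_eq_zero_iff_of_nonneg (fun v _ => nQ v)).1 (hPQ.trans hp.symm) v
        (Finset.mem_univ v)
      unfold iP at z1
      unfold iQ at z2
      rcases h1 v with h | h | h
      · rw [h] at z2; norm_num at z2
      · exact h
      · rw [h] at z1; norm_num at z1
    have hcb0 : (0 : ℝ) ≤ Y.card / 2 - (∑ v, iZ Y σ v) ^ 2 / (2 * Y.card) := by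
      have hz1 : ∑ v, iZ Y σ v = (Y.card : ℝ) := by linarith
      rw [hz1]
      rcases (Nat.cast_nonneg (α := ℝ) Y.card).eq_or_lt with h | h
      · rw [← h]; simp
      · apply le_of_eq
        field_simp
        ring
    refine ⟨0, hcb0, fun e e0 => ⟨fun _ _ => 0, 0, by simp, by simp, ?_, by simp, ?_⟩⟩
    · intro b; rw [hσ b]; simp
    · have hl : ∀ a b, lin Y σ a b = 0 := by
        intro a b; unfold lin; rw [hσ a, hσ b]; simp
      simp only [hl]
      have : (0 : ℝ) ≤ 3 * Y.card := by positivity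
      simp
  · obtain ⟨w, hw0, hw1, hsup, hmean, hcb⟩ := exists_perm_avg2 (Y := Y) h1 h2 hp hcard
      (Finset.sum_nonneg (fun v _ => nZ v)) rfl hPQ rfl rfl
    set m : ℝ := (Y.card : ℝ) with hm
    have hm0 : 0 < m := by
      rw [hcard]
      have := Finset.sum_nonneg (fun v (_ : v ∈ Finset.univ) => nZ v)
      linarith
    set cb := ∑ π, w π * pc σ π with hcbdef
    have hcbh : cb ≤ m / 2 := by
      rw [hcb]
      have : 0 ≤ (∑ v, iZ Y σ v) ^ 2 / (2 * m) := by positivity
      linarith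
    refine ⟨cb, hcb.le, ?_⟩
    intro e e0
    have hpcn : ∀ π, 0 ≤ pc σ π := by
      intro π; unfold pc
      apply Finset.sum_nonneg; intro a _; split_ifs <;> norm_num
    have hpc : ∀ π, 0 < w π → pc σ π ≤ m := by
      intro π hπ
      have : m = ∑ a : V, (if a ∈ Y then (1 : ℝ) else 0) := by
        rw [hm]; simp
      rw [this]
      unfold pc
      apply Finset.sum_le_sum
      intro a _
      by_cases ha : a ∈ Y
      · rw [if_pos ha]; split_ifs <;> norm_num
      · have := (hsup π hπ a).2.2.2 ha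
        simp [this, ha]
    have hF : ∑ π, w π * (∑ a, ∑ b, (e a b + ((pf σ π a b : ℤ) : ℝ) - lin Y σ a b) ^ 2 +
        (e0 + pc σ π - cb) ^ 2 / m) ≤
        ∑ a, ∑ b, (e a b) ^ 2 + e0 ^ 2 / m + 3 * m := by
      have e1 : ∑ π, w π * (∑ a, ∑ b, (e a b + ((pf σ π a b : ℤ) : ℝ) - lin Y σ a b) ^ 2 +
          (e0 + pc σ π - cb) ^ 2 / m) =
          ∑ a, ∑ b, ∑ π, w π * (e a b + ((pf σ π a b : ℤ) : ℝ) - lin Y σ a b) ^ 2 +
          (∑ π, w π * (e0 + pc σ π - cb) ^ 2) / m := by
        simp only [mul_add, Finset.sum_add_distrib]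
        congr 1
        · simp only [Finset.mul_sum]
          rw [Finset.sum_comm]
          apply Finset.sum_congr rfl
          intro a _
          rw [Finset.sum_comm]
        · rw [Finset.sum_div]
          apply Finset.sum_congr rfl
          intro π _
          ring
      rw [e1]
      have e2 : ∑ a, ∑ b, ∑ π, w π * (e a b + ((pf σ π a b : ℤ) : ℝ) - lin Y σ a b) ^ 2 ≤
          ∑ a, ∑ b, (e a b) ^ 2 + m := by
        calc ∑ a, ∑ b, ∑ π, w π * (e a b + ((pf σ π a b : ℤ) : ℝ) - lin Y σ a b) ^ 2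
            ≤ ∑ a, ∑ b, ((e a b) ^ 2 + ∑ π, w π * ((pf σ π a b : ℤ) : ℝ) ^ 2) := by
              apply Finset.sum_le_sum; intro a _
              apply Finset.sum_le_sum; intro b _
              exact variance_le w (fun π => ((pf σ π a b : ℤ) : ℝ)) hw1 (e a b) _ (hmean a b)
          _ = ∑ a, ∑ b, (e a b) ^ 2 + ∑ π, w π * ∑ a, ∑ b, ((pf σ π a b : ℤ) : ℝ) ^ 2 := by
              simp only [Finset.sum_add_distrib]
              congr 1
              simp only [Finset.mul_sum]
              symm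
              rw [Finset.sum_comm]
              apply Finset.sum_congr rfl
              intro a _
              rw [Finset.sum_comm]
          _ ≤ ∑ a, ∑ b, (e a b) ^ 2 + ∑ π, w π * (2 * pc σ π) := by
              gcongr with π _
              · exact hw0 π
              · exact pf_sq_sum σ π
          _ = ∑ a, ∑ b, (e a b) ^ 2 + 2 * cb := by
              rw [hcbdef, Finset.mul_sum]
              congr 1
              apply Finset.sum_congr rfl
              intro π _
              ring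
          _ ≤ ∑ a, ∑ b, (e a b) ^ 2 + m := by linarith
      have e3 : ∑ π, w π * (e0 + pc σ π - cb) ^ 2 ≤ e0 ^ 2 + m ^ 2 := by
        refine (variance_le w (fun π => pc σ π) hw1 e0 cb rfl).trans ?_
        have : ∑ π, w π * (pc σ π) ^ 2 ≤ ∑ π, w π * m ^ 2 := by
          apply Finset.sum_le_sum
          intro π _
          rcases (hw0 π).eq_or_lt with h | h
          · rw [← h]; simp
          · exact mul_le_mul_of_nonneg_left
              (pow_le_pow_left₀ (hpcn π) (hpc π h) 2) (hw0 π)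
        rw [← Finset.sum_mul, hw1, one_mul] at this
        linarith
      have e4 : (∑ π, w π * (e0 + pc σ π - cb) ^ 2) / m ≤ e0 ^ 2 / m + m := by
        rw [div_le_iff₀ hm0]
        have : (e0 ^ 2 / m + m) * m = e0 ^ 2 + m ^ 2 := by field_simp
        rw [this]
        exact e3
      linarith
    obtain ⟨π, hπ, hK⟩ := exists_le_of_avg w _ hw0 hw1 _ hF
    have hs := hsup π hπ
    refine ⟨pf σ π, pc σ π, pf_skew σ π, ?_, ?_, pf_pos_sum σ π, hK⟩
    · intro a b hab
      have key : ∀ a b, π a = b ∧ σ a ≠ 1 → a ≠ b → a ∈ Y ∧ b ∈ Y := by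
        rintro a b ⟨hπa, hσa⟩ hne
        have ha : a ∈ Y := by
          by_contra h
          exact hne (((hs a).2.2.2 h).symm.trans hπa)
        refine ⟨ha, ?_⟩
        rcases h1 a with h | h | h
        · exact hπa ▸ ((hs a).2.1 h).1
        · rcases (hs a).2.2.1 ha h with h' | h'
          · by_contra hb
            have := h2 b hb
            rw [hπa] at h'
            omega
          · exact absurd (h'.symm.trans hπa) hne
        · exact absurd h hσa
      have hne : a ≠ b := by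
        rintro rfl
        exact hab (pf_diag σ π a)
      unfold pf at hab
      by_cases c1 : π a = b ∧ σ a ≠ 1
      · exact key a b c1 hne
      · by_cases c2 : π b = a ∧ σ b ≠ 1
        · exact (key b a c2 (Ne.symm hne)).symm
        · rw [if_neg c1, if_neg c2] at hab
          exact absurd rfl hab
    · intro b
      unfold pf
      rw [Finset.sum_sub_distrib]
      have f1 : ∑ a, (if π a = b ∧ σ a ≠ 1 then (1 : ℤ) else 0) =
          if σ (π.symm b) ≠ 1 then 1 else 0 := by
        rw [Finset.sum_eq_single (π.symm b)]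
        · simp
        · intro a _ ha
          rw [if_neg]
          rintro ⟨h, -⟩
          exact ha (by rw [← h]; simp)
        · simp
      have f2 : ∑ a, (if π b = a ∧ σ b ≠ 1 then (1 : ℤ) else 0) = if σ b ≠ 1 then 1 else 0 := by
        rw [Finset.sum_eq_single (π b)]
        · simp
        · intro a _ ha
          rw [if_neg]
          rintro ⟨h, -⟩
          exact ha h.symm
        · simp
      rw [f1, f2]
      have hb := hs (π.symm b)
      rw [Equiv.apply_symm_apply] at hb
      rcases h1 b with h | h | h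
      · -- σ b = -1
        have : σ (π.symm b) = 1 := by
          rcases h1 (π.symm b) with g | g | g
          · exact absurd h (hb.2.1 g).2
          · by_cases hy : π.symm b ∈ Y
            · rcases hb.2.2.1 hy g with g' | g'
              · omega
              · rw [← g'] at g; omega
            · have g' := hb.2.2.2 hy
              rw [← g'] at g; omega
          · exact g
        rw [this, h]; norm_num
      · have : σ (π.symm b) ≠ 1 := by
          intro g
          have := hb.1 g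
          omega
        rw [if_pos this, h]; norm_num
      · have : σ (π.symm b) ≠ 1 := by
          intro g
          have := hb.1 g
          omega
        rw [if_pos this, h]; norm_num

end local_lemma

end Pool.Agent.Helper83.TI2
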