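import Pool.Agent.Helper40.TI.Batch
import Pool.Agent.Helper83.TI2.Flow

/-!
Simultaneous choice of flows on one batch, with the exact mean cost.
-/

namespace Pool.Agent.Helper83.TI2

open Classical Finset Pool.Agent.Helper40.TI

variable {V : Type*} [Fintype V]

theorem batch_aux2 (Y : Finset V) (σ : V → V → ℤ) (X' : Finset V)
    (h1 : ∀ x ∈ X', ∀ v, σ x v = -1 ∨ σ x v = 0 ∨ σ x v = 1)
    (h2 : ∀ x ∈ X', ∀ v, v ∉ Y → σ x v = 0) (h0 : ∀ x ∈ X', ∑ v, σ x v = 0) :
    ∃ (φ : V → V → V → ℤ) (c cb : V → ℝ),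
      (∀ x a b, φ x a b = - φ x b a) ∧
      (∀ x a b, φ x a b ≠ 0 → x ∈ X' ∧ a ∈ Y ∧ b ∈ Y) ∧
      (∀ x ∈ X', ∀ b, ∑ a, φ x a b = σ x b) ∧
      (∀ x ∈ X', cb x ≤ Y.card / 2 - (∑ v, iZ Y (σ x) v) ^ 2 / (2 * Y.card)) ∧
      (∀ x ∈ X', ∑ a, ∑ b, ((max (φ x a b) 0 : ℤ) : ℝ) ≤ c x) ∧
      ∑ a, ∑ b, (∑ x ∈ X', ((φ x a b : ℝ) - lin Y (σ x) a b)) ^ 2 +
        (∑ x ∈ X', (c x - cb x)) ^ 2 / Y.card ≤ 3 * Y.card * X'.card := by
  induction X' using Finset.induction_on with
  | empty =>
      refine ⟨fun _ _ _ => 0, fun _ => 0, fun _ => 0, by simp, by simp, by simp, by simp,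
        by simp, by simp⟩
  | insert x X' hx ih =>
      obtain ⟨φ, c, cb, a1, a2, a3, a4, a5, a6⟩ := ih
        (fun y hy => h1 y (Finset.mem_insert_of_mem hy))
        (fun y hy => h2 y (Finset.mem_insert_of_mem hy))
        (fun y hy => h0 y (Finset.mem_insert_of_mem hy))
      obtain ⟨cbx, hcbx, hflow⟩ := local_flow2 (Y := Y) (σ := σ x)
        (h1 x (Finset.mem_insert_self _ _)) (h2 x (Finset.mem_insert_self _ _))
        (h0 x (Finset.mem_insert_self _ _))
      obtain ⟨ψ, cx, b1, b2, b3, b4, b5⟩ := hflow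
        (fun a b => ∑ y ∈ X', ((φ y a b : ℝ) - lin Y (σ y) a b)) (∑ y ∈ X', (c y - cb y))
      have hne : ∀ y ∈ X', y ≠ x := fun y hy h => hx (h ▸ hy)
      refine ⟨Function.update φ x ψ, Function.update c x cx, Function.update cb x cbx,
        ?_, ?_, ?_, ?_, ?_, ?_⟩
      · intro y a b
        by_cases hy : y = x
        · subst hy; simp only [Function.update_self]; exact b1 a b
        · simp only [Function.update_of_ne hy]; exact a1 y a b
      · intro y a b hyab
        by_cases hy : y = x
        · subst hy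
          simp only [Function.update_self] at hyab
          exact ⟨Finset.mem_insert_self _ _, b2 a b hyab⟩
        · simp only [Function.update_of_ne hy] at hyab
          obtain ⟨q1, q2⟩ := a2 y a b hyab
          exact ⟨Finset.mem_insert_of_mem q1, q2⟩
      · intro y hy b
        by_cases hyx : y = x
        · subst hyx; simp only [Function.update_self]; exact b3 b
        · simp only [Function.update_of_ne hyx]
          exact a3 y ((Finset.mem_insert.1 hy).resolve_left hyx) b
      · intro y hy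
        by_cases hyx : y = x
        · subst hyx; simp only [Function.update_self]; exact hcbx
        · simp only [Function.update_of_ne hyx]
          exact a4 y ((Finset.mem_insert.1 hy).resolve_left hyx)
      · intro y hy
        by_cases hyx : y = x
        · subst hyx; simp only [Function.update_self]; exact b4
        · simp only [Function.update_of_ne hyx]
          exact a5 y ((Finset.mem_insert.1 hy).resolve_left hyx)
      · have e1 : ∀ a b, ∑ y ∈ insert x X', (((Function.update φ x ψ) y a b : ℝ) -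
            lin Y (σ y) a b) = (∑ y ∈ X', ((φ y a b : ℝ) - lin Y (σ y) a b)) + ψ a b -
            lin Y (σ x) a b := by
          intro a b
          rw [Finset.sum_insert hx]
          simp only [Function.update_self]
          have : ∑ y ∈ X', (((Function.update φ x ψ) y a b : ℝ) - lin Y (σ y) a b) =
              ∑ y ∈ X', ((φ y a b : ℝ) - lin Y (σ y) a b) := by
            apply Finset.sum_congr rfl
            intro y hy
            rw [Function.update_of_ne (hne y hy)]
          rw [this]
          ring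
        have e2 : ∑ y ∈ insert x X', (Function.update c x cx y - Function.update cb x cbx y) =
            (∑ y ∈ X', (c y - cb y)) + cx - cbx := by
          rw [Finset.sum_insert hx]
          simp only [Function.update_self]
          have : ∑ y ∈ X', (Function.update c x cx y - Function.update cb x cbx y) =
              ∑ y ∈ X', (c y - cb y) := by
            apply Finset.sum_congr rfl
            intro y hy
            rw [Function.update_of_ne (hne y hy), Function.update_of_ne (hne y hy)]
          rw [this]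
          ring
        simp only [e1, e2]
        rw [Finset.card_insert_of_notMem hx]
        push_cast
        have := b5.trans (by linarith [a6] :
          ∑ a, ∑ b, (∑ y ∈ X', ((φ y a b : ℝ) - lin Y (σ y) a b)) ^ 2 +
            (∑ y ∈ X', (c y - cb y)) ^ 2 / Y.card + 3 * Y.card ≤
            3 * Y.card * X'.card + 3 * Y.card)
        linarith

theorem batch_flows2 (Y : Finset V) (σ : V → V → ℤ) (X' : Finset V)
    (h1 : ∀ x ∈ X', ∀ v, σ x v = -1 ∨ σ x v = 0 ∨ σ x v = 1)
    (h2 : ∀ x ∈ X', ∀ v, v ∉ Y → σ x v = 0) (h0 : ∀ x ∈ X', ∑ v, σ x v = 0) :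
    ∃ (φ : V → V → V → ℤ),
      (∀ x a b, φ x a b = - φ x b a) ∧
      (∀ x a b, φ x a b ≠ 0 → x ∈ X' ∧ a ∈ Y ∧ b ∈ Y) ∧
      (∀ x ∈ X', ∀ b, ∑ a, φ x a b = σ x b) ∧
      (∑ x ∈ X', ∑ a, ∑ b, ((max (φ x a b) 0 : ℤ) : ℝ) ≤
        X'.card * Y.card / 2 - ∑ x ∈ X', (∑ v, iZ Y (σ x) v) ^ 2 / (2 * Y.card) +
          Y.card * Real.sqrt (3 * X'.card)) ∧
      (∑ a, ∑ b, |((∑ x ∈ X', φ x a b : ℤ) : ℝ)| ≤
        Y.card * Real.sqrt (3 * Y.card * X'.card) +
          2 * ∑ b ∈ Y, |((∑ x ∈ X', σ x b : ℤ) : ℝ)|) := by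
  have n1 : (0 : ℝ) ≤ 3 * X'.card := by positivity
  have n2 : (0 : ℝ) ≤ 3 * Y.card * X'.card := by positivity
  have n3 : (0 : ℝ) ≤ Y.card * Real.sqrt (3 * X'.card) := by positivity
  have n4 : (0 : ℝ) ≤ Y.card * Real.sqrt (3 * Y.card * X'.card) := by positivity
  have n5 : (0 : ℝ) ≤ (Y.card : ℝ) * Y.card := by positivity
  have n6 : (0 : ℝ) ≤ (Y.card : ℝ) := by positivity
  obtain ⟨φ, c, cb, a1, a2, a3, a4, a5, a6⟩ := batch_aux2 Y σ X' h1 h2 h0
  refine ⟨φ, a1, a2, a3, ?_, ?_⟩
  · rcases Finset.eq_empty_or_nonempty Y with hY | hY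
    · have : ∀ x a b, φ x a b = 0 := by
        intro x a b
        by_contra h
        have := (a2 x a b h).2.1
        rw [hY] at this
        simp at this
      simp [this, hY]
    · have hm : (0 : ℝ) < Y.card := by exact_mod_cast hY.card_pos
      have s1 : ∑ x ∈ X', ∑ a, ∑ b, ((max (φ x a b) 0 : ℤ) : ℝ) ≤ ∑ x ∈ X', c x :=
        Finset.sum_le_sum a5
      have s2 : ∑ x ∈ X', cb x ≤ X'.card * (Y.card / 2) -
          ∑ x ∈ X', (∑ v, iZ Y (σ x) v) ^ 2 / (2 * Y.card) := by
        have := Finset.sum_le_sum a4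
        rw [Finset.sum_sub_distrib, Finset.sum_const, nsmul_eq_mul] at this
        exact this
      have s3 : (∑ x ∈ X', (c x - cb x)) ^ 2 ≤ (Y.card * Real.sqrt (3 * X'.card)) ^ 2 := by
        rw [mul_pow, Real.sq_sqrt n1]
        have t1 : (0 : ℝ) ≤ ∑ a, ∑ b, (∑ x ∈ X', ((φ x a b : ℝ) - lin Y (σ x) a b)) ^ 2 :=
          Finset.sum_nonneg (fun a _ => Finset.sum_nonneg (fun b _ => sq_nonneg _))
        have t2 : (∑ x ∈ X', (c x - cb x)) ^ 2 / Y.card ≤ 3 * Y.card * X'.card := by linarith
        rw [div_le_iff₀ hm] at t2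
        linarith
      have s4 : ∑ x ∈ X', (c x - cb x) ≤ Y.card * Real.sqrt (3 * X'.card) :=
        (abs_le_of_sq_le_sq' s3 n3).2
      rw [Finset.sum_sub_distrib] at s4
      have : (X'.card : ℝ) * (Y.card / 2) = X'.card * Y.card / 2 := by ring
      linarith
  · set e : V → V → ℝ := fun a b => ∑ x ∈ X', ((φ x a b : ℝ) - lin Y (σ x) a b) with he
    have hsplit : ∀ a b, ((∑ x ∈ X', φ x a b : ℤ) : ℝ) = e a b + ∑ x ∈ X', lin Y (σ x) a b := by
      intro a b
      rw [he]
      simp only [Finset.sum_sub_distrib]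
      push_cast
      ring
    have he0 : ∀ a b, ¬ (a ∈ Y ∧ b ∈ Y) → e a b = 0 := by
      intro a b hab
      rw [he]
      apply Finset.sum_eq_zero
      intro x _
      have : φ x a b = 0 := by
        by_contra h
        exact hab (a2 x a b h).2
      rw [this]
      unfold lin
      rw [if_neg hab]
      simp
    have hE : ∑ a, ∑ b, |e a b| ≤ Y.card * Real.sqrt (3 * Y.card * X'.card) := by
      have r1 : ∑ a, ∑ b, |e a b| = ∑ p ∈ Y ×ˢ Y, |e p.1 p.2| := by
        rw [Finset.sum_product]
        rw [← Finset.sum_subset (Finset.subset_univ Y)]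
        · apply Finset.sum_congr rfl
          intro a _
          rw [← Finset.sum_subset (Finset.subset_univ Y)]
          intro b _ hb
          rw [he0 a b (fun h => hb h.2), abs_zero]
        · intro a _ ha
          apply Finset.sum_eq_zero
          intro b _
          rw [he0 a b (fun h => ha h.1), abs_zero]
      have r2 : ∑ p ∈ Y ×ˢ Y, (e p.1 p.2) ^ 2 ≤ 3 * Y.card * X'.card := by
        have : ∑ p ∈ Y ×ˢ Y, (e p.1 p.2) ^ 2 ≤ ∑ a, ∑ b, (e a b) ^ 2 := by
          rw [← Fintype.sum_prod_type (f := fun p : V × V => (e p.1 p.2) ^ 2)]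
          exact Finset.sum_le_sum_of_subset_of_nonneg (Finset.subset_univ _)
            (fun _ _ _ => sq_nonneg _)
        have t2 : (0 : ℝ) ≤ (∑ x ∈ X', (c x - cb x)) ^ 2 / Y.card := div_nonneg (sq_nonneg _) n6
        linarith
      have r3 : (∑ p ∈ Y ×ˢ Y, |e p.1 p.2|) ^ 2 ≤ (Y.card * Real.sqrt (3 * Y.card * X'.card)) ^ 2 := by
        have := sq_sum_le_card_mul_sum_sq (s := Y ×ˢ Y) (f := fun p : V × V => |e p.1 p.2|)
        simp only [sq_abs, Finset.card_product] at this
        rw [mul_pow, Real.sq_sqrt n2]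
        push_cast at this
        have h3 : ((Y.card : ℝ) * Y.card) * ∑ p ∈ Y ×ˢ Y, (e p.1 p.2) ^ 2 ≤
            ((Y.card : ℝ) * Y.card) * (3 * Y.card * X'.card) :=
          mul_le_mul_of_nonneg_left r2 n5
        nlinarith
      rw [r1]
      exact (abs_le_of_sq_le_sq' r3 n4).2
    have hL : ∑ a, ∑ b, |∑ x ∈ X', lin Y (σ x) a b| ≤
        2 * ∑ b ∈ Y, |((∑ x ∈ X', σ x b : ℤ) : ℝ)| := by
      set S : V → ℝ := fun b => ((∑ x ∈ X', σ x b : ℤ) : ℝ) with hS
      have r0 : ∀ a b, |∑ x ∈ X', lin Y (σ x) a b| ≤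
          if a ∈ Y then (if b ∈ Y then (|S b| + |S a|) / Y.card else 0) else 0 := by
        intro a b
        rw [sum_lin]
        by_cases ha : a ∈ Y
        · by_cases hb : b ∈ Y
          · rw [if_pos ⟨ha, hb⟩, if_pos ha, if_pos hb, abs_div, Nat.abs_cast]
            exact div_le_div_of_nonneg_right (abs_sub _ _) n6
          · simp [ha, hb]
        · simp [ha]
      calc ∑ a, ∑ b, |∑ x ∈ X', lin Y (σ x) a b|
          ≤ ∑ a, ∑ b, (if a ∈ Y then (if b ∈ Y then (|S b| + |S a|) / Y.card else 0) else 0) :=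
            Finset.sum_le_sum (fun a _ => Finset.sum_le_sum (fun b _ => r0 a b))
        _ = ∑ a ∈ Y, ∑ b ∈ Y, (|S b| + |S a|) / Y.card := by
            rw [← Finset.sum_filter_add_sum_filter_not Finset.univ (fun a => a ∈ Y)]
            rw [Finset.filter_mem_eq_inter, Finset.univ_inter]
            rw [Finset.sum_congr rfl (g := fun a => ∑ b ∈ Y, (|S b| + |S a|) / Y.card)]
            · rw [Finset.sum_eq_zero (s := Finset.univ.filter (fun a => a ∉ Y)), add_zero]
              intro a ha
              have : a ∉ Y := (Finset.mem_filter.1 ha).2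
              simp [this]
            · intro a ha
              simp only [ha, if_true]
              rw [← Finset.sum_filter, Finset.filter_mem_eq_inter, Finset.univ_inter]
        _ ≤ 2 * ∑ b ∈ Y, |S b| := by
            rcases Finset.eq_empty_or_nonempty Y with hY | hY
            · simp [hY]
            · have hm : (0 : ℝ) < Y.card := by exact_mod_cast hY.card_pos
              have e1 : ∀ a ∈ Y, ∑ b ∈ Y, (|S b| + |S a|) / (Y.card : ℝ) =
                  (∑ b ∈ Y, |S b|) / Y.card + |S a| := by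
                intro a _
                rw [← Finset.sum_div, Finset.sum_add_distrib, Finset.sum_const, nsmul_eq_mul,
                  add_div, mul_div_assoc, mul_div_cancel₀]
                exact hm.ne'
              rw [Finset.sum_congr rfl e1, Finset.sum_add_distrib, Finset.sum_const, nsmul_eq_mul,
                mul_div_cancel₀ _ hm.ne']
              linarith
    calc ∑ a, ∑ b, |((∑ x ∈ X', φ x a b : ℤ) : ℝ)|
        ≤ ∑ a, ∑ b, (|e a b| + |∑ x ∈ X', lin Y (σ x) a b|) := by
          apply Finset.sum_le_sum; intro a _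
          apply Finset.sum_le_sum; intro b _
          rw [hsplit]
          exact abs_add_le _ _
      _ = ∑ a, ∑ b, |e a b| + ∑ a, ∑ b, |∑ x ∈ X', lin Y (σ x) a b| := by
          simp only [Finset.sum_add_distrib]
      _ ≤ _ := add_le_add hE hL

end Pool.Agent.Helper83.TI2
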