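import Pool.Agent.Helper40.TI.Assemble
import Pool.Agent.Helper83.TI2.Batch

/-!
Assembling the batches, with the saving coming from the pairs on which the two tournaments agree.
-/

namespace Pool.Agent.Helper83.TI2

open Classical Finset Pool.Agent.Helper40.TI

variable {V : Type*} [Fintype V]

theorem balance_aux2 (Y : Finset V) (s : V → ℤ) (h1 : ∀ v, s v = -1 ∨ s v = 0 ∨ s v = 1)
    (hpos : 0 ≤ ∑ y ∈ Y, s y) :
    ∃ σ : V → ℤ, (∀ v, σ v = -1 ∨ σ v = 0 ∨ σ v = 1) ∧ (∀ v, v ∉ Y → σ v = 0) ∧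
      ∑ v, σ v = 0 ∧ ∑ y ∈ Y, |s y - σ y| = |∑ y ∈ Y, s y| ∧ ∀ v, s v = 0 → σ v = 0 := by
  set P := Y.filter (fun y => s y = 1) with hP
  set M := Y.filter (fun y => s y = -1) with hM
  have hsum : ∑ y ∈ Y, s y = (P.card : ℤ) - M.card := by
    have : ∀ y ∈ Y, s y = (if s y = 1 then 1 else 0) - (if s y = -1 then 1 else 0) := by
      intro y _
      rcases h1 y with h | h | h <;> simp [h]
    rw [Finset.sum_congr rfl this, Finset.sum_sub_distrib, Finset.sum_ite, Finset.sum_ite]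
    simp [hP, hM]
  have hle : M.card ≤ P.card := by
    rw [hsum] at hpos; omega
  obtain ⟨P', hP', hcard⟩ := Finset.exists_subset_card_eq hle
  have memP : ∀ y, y ∈ P ↔ y ∈ Y ∧ s y = 1 := by intro y; simp [hP]
  have memM : ∀ y, y ∈ M ↔ y ∈ Y ∧ s y = -1 := by intro y; simp [hM]
  have hPP : ∀ y ∈ P', y ∈ Y ∧ s y = 1 := fun y hy => (memP y).1 (hP' hy)
  have hsub1 : P' ⊆ Y := fun y hy => (hPP y hy).1
  have hsub2 : M ⊆ Y := fun y hy => ((memM y).1 hy).1
  have hsub3 : P ⊆ Y := fun y hy => ((memP y).1 hy).1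
  refine ⟨fun v => (if v ∈ P' then 1 else 0) - (if v ∈ M then 1 else 0), ?_, ?_, ?_, ?_, ?_⟩
  · intro v
    beta_reduce
    by_cases a1 : v ∈ P' <;> by_cases a2 : v ∈ M
    · simp [a1, a2]
    · simp [a1, a2]
    · simp [a1, a2]
    · simp [a1, a2]
  · intro v hv
    have a1 : v ∉ P' := fun h => hv (hsub1 h)
    have a2 : v ∉ M := fun h => hv (hsub2 h)
    simp [a1, a2]
  · rw [Finset.sum_sub_distrib]
    simp [hcard]
  · rw [abs_of_nonneg hpos, hsum]
    have : ∀ y ∈ Y, |s y - ((if y ∈ P' then 1 else 0) - (if y ∈ M then 1 else 0))| =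
        (if y ∈ P then 1 else 0) - (if y ∈ P' then 1 else 0) := by
      intro y hy
      have mP := memP y
      have mM := memM y
      by_cases a1 : y ∈ P'
      · have b1 := hPP y a1
        have b2 : y ∈ P := hP' a1
        have b3 : y ∉ M := by rw [mM]; rintro ⟨_, h⟩; omega
        simp [a1, b2, b3, b1.2]
      · rcases h1 y with h | h | h
        · have b3 : y ∈ M := mM.2 ⟨hy, h⟩
          have b2 : y ∉ P := by rw [mP]; rintro ⟨_, h'⟩; omega
          simp [a1, b2, b3, h]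
        · have b3 : y ∉ M := by rw [mM]; rintro ⟨_, h'⟩; omega
          have b2 : y ∉ P := by rw [mP]; rintro ⟨_, h'⟩; omega
          simp [a1, b2, b3, h]
        · have b3 : y ∉ M := by rw [mM]; rintro ⟨_, h'⟩; omega
          have b2 : y ∈ P := mP.2 ⟨hy, h⟩
          simp [a1, b2, b3, h]
    rw [Finset.sum_congr rfl this, Finset.sum_sub_distrib, ← Finset.sum_filter,
      ← Finset.sum_filter]
    have e1 : Y.filter (fun y => y ∈ P) = P := by
      ext y; simp only [Finset.mem_filter]; exact ⟨fun h => h.2, fun h => ⟨hsub3 h, h⟩⟩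
    have e2 : Y.filter (fun y => y ∈ P') = P' := by
      ext y; simp only [Finset.mem_filter]; exact ⟨fun h => h.2, fun h => ⟨hsub1 h, h⟩⟩
    rw [e1, e2]
    simp [hcard]
  · intro v hv
    have a1 : v ∉ P' := by
      intro h
      have := (hPP v h).2
      omega
    have a2 : v ∉ M := by
      rw [memM]
      rintro ⟨_, h⟩
      omega
    simp [a1, a2]

/-- A sign vector can be made balanced on `Y` by erasing as few entries as possible. -/
theorem balance2 (Y : Finset V) (s : V → ℤ) (h1 : ∀ v, s v = -1 ∨ s v = 0 ∨ s v = 1) :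
    ∃ σ : V → ℤ, (∀ v, σ v = -1 ∨ σ v = 0 ∨ σ v = 1) ∧ (∀ v, v ∉ Y → σ v = 0) ∧
      ∑ v, σ v = 0 ∧ ∑ y ∈ Y, |s y - σ y| = |∑ y ∈ Y, s y| ∧ ∀ v, s v = 0 → σ v = 0 := by
  by_cases hpos : 0 ≤ ∑ y ∈ Y, s y
  · exact balance_aux2 Y s h1 hpos
  · have h1' : ∀ v, (fun v => - s v) v = -1 ∨ (fun v => - s v) v = 0 ∨ (fun v => - s v) v = 1 := by
      intro v
      rcases h1 v with h | h | h <;> simp [h]
    obtain ⟨σ, a1, a2, a3, a4, a5⟩ := balance_aux2 Y (fun v => - s v) h1' (by
      rw [Finset.sum_neg_distrib]; omega)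
    refine ⟨fun v => - σ v, ?_, ?_, ?_, ?_, fun v hv => by have h5 := a5 v (by rw [hv]; rfl); simp [h5]⟩
    · intro v
      rcases a1 v with h | h | h <;> simp [h]
    · intro v hv; simp [a2 v hv]
    · rw [Finset.sum_neg_distrib, a3]; rfl
    · rw [Finset.sum_neg_distrib, abs_neg] at a4
      rw [← a4]
      apply Finset.sum_congr rfl; intro y _
      rw [← abs_neg]
      congr 1
      ring

theorem assemble2 [Nonempty V] {r : ℕ} (l : V → Fin r) (s : V → V → ℤ)
    (hs1 : ∀ u v, s u v = -1 ∨ s u v = 0 ∨ s u v = 1) (hsk : ∀ u v, s u v = - s v u)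
    (hrow : ∀ u, ∑ v, s u v = 0) (m N : Fin r → ℝ)
    (hm : ∀ i, m i = ((univ.filter (fun y => l y = i)).card : ℝ))
    (hN : ∀ i, N i = ((univ.filter (fun x => i < l x)).card : ℝ)) (L C B : ℝ)
    (hL : L = ∑ i, ∑ x ∈ univ.filter (fun x => i < l x),
      |((∑ y ∈ univ.filter (fun y => l y = i), s x y : ℤ) : ℝ)|)
    (hC : C = ∑ i, m i ^ 2)
    (hB : B = ∑ b, |((∑ x ∈ univ.filter (fun x => l b < l x), s x b : ℤ) : ℝ)|)
    (n : ℝ) (hn : 0 < n) (hpairs : ∑ i, N i * m i ≤ n ^ 2 / 2) (A : ℝ) (hA0 : 0 ≤ A)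
    (hA : 2 * A ≤ (∑ x, ∑ y, if s x y = 0 then (1 : ℝ) else 0) - C) :
    ∃ φ : V → V → V → ℤ, (∀ x a b, φ x a b = - φ x b a) ∧
      (∀ x a b, φ x a b ≠ 0 → x ≠ a ∧ x ≠ b) ∧ (∀ u v, bf φ u v = s u v) ∧
      ((∑ x, ∑ a, ∑ b, max (φ x a b) 0 : ℤ) : ℝ) ≤
        ∑ i, (N i * m i / 2 + m i * Real.sqrt (3 * N i)) - A ^ 2 / n ^ 2 +
          (4 * L + C + ∑ i, m i * Real.sqrt (3 * m i * N i) + 2 * B) / 2 := by
  set Y : Fin r → Finset V := fun i => univ.filter (fun y => l y = i) with hY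
  set X' : Fin r → Finset V := fun i => univ.filter (fun x => i < l x) with hX'
  have mY : ∀ i y, y ∈ Y i ↔ l y = i := by intro i y; simp [hY]
  have mX : ∀ i x, x ∈ X' i ↔ i < l x := by intro i x; simp [hX']
  choose σ g1 g2 g3 g4 g5 using fun i x => balance2 (Y i) (s x) (hs1 x)
  choose F f1 f2 f3 f4 f5 using fun i => batch_flows2 (Y i) (σ i) (X' i) (fun x _ => g1 i x)
    (fun x _ => g2 i x) (fun x _ => g3 i x)
  set φ1 : V → V → V → ℤ := fun x a b => ∑ i, F i x a b with hφ1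
  have skew1 : ∀ x a b, φ1 x a b = - φ1 x b a := by
    intro x a b
    rw [hφ1]; beta_reduce
    rw [← Finset.sum_neg_distrib]
    apply Finset.sum_congr rfl; intro i _
    exact f1 i x a b
  have supp1 : ∀ x a b, φ1 x a b ≠ 0 → l a = l b ∧ l a < l x := by
    intro x a b h
    obtain ⟨i, _, hi⟩ := Finset.exists_ne_zero_of_sum_ne_zero h
    obtain ⟨h1, h2, h3⟩ := f2 i x a b hi
    rw [mX] at h1; rw [mY] at h2 h3
    rw [h2, h3]; exact ⟨rfl, h1⟩
  have supp1' : ∀ x a b, φ1 x a b ≠ 0 → x ≠ a ∧ x ≠ b := by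
    intro x a b h
    obtain ⟨h1, h2⟩ := supp1 x a b h
    constructor
    · rintro rfl; exact lt_irrefl _ h2
    · rintro rfl; rw [h1] at h2; exact lt_irrefl _ h2
  have tau : ∀ x b, ∑ a, φ1 x a b = if l b < l x then σ (l b) x b else 0 := by
    intro x b
    rw [hφ1]; beta_reduce
    rw [Finset.sum_comm, Finset.sum_eq_single (l b)]
    · split_ifs with h
      · exact f3 (l b) x ((mX _ _).2 h) b
      · apply Finset.sum_eq_zero; intro a _
        by_contra hne
        exact h ((mX _ _).1 (f2 _ _ _ _ hne).1)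
    · intro i _ hi
      apply Finset.sum_eq_zero; intro a _
      by_contra hne
      exact hi ((mY _ _).1 (f2 _ _ _ _ hne).2.2).symm
    · simp
  set Φ : V → V → ℤ := fun a b => ∑ x, φ1 x a b with hΦ
  have bf1 : ∀ u v, bf φ1 u v = (if l v < l u then σ (l v) u v else 0) -
      (if l u < l v then σ (l u) v u else 0) + Φ v u := by
    intro u v
    unfold bf
    rw [tau, tau]
  set E : V → V → ℤ := fun u v => s u v - bf φ1 u v with hE
  have Eskew : ∀ a b, E a b = - E b a := by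
    intro a b
    rw [hE]; beta_reduce
    rw [hsk a b, bf_skew φ1 skew1 a b]; ring
  have Ecol : ∀ b, ∑ a, E a b = 0 := by
    intro b
    rw [hE]; beta_reduce
    rw [Finset.sum_sub_distrib, bf_sum φ1 skew1]
    have : ∑ a, s a b = - ∑ a, s b a := by
      rw [← Finset.sum_neg_distrib]
      apply Finset.sum_congr rfl; intro a _
      exact hsk a b
    rw [this, hrow]; rfl
  obtain ⟨φ2, c1, c2, c3, c4⟩ := cone E Eskew Ecol
  -- bound for |E|
  have absE : ∀ u v, |(E u v : ℝ)| ≤ (if l v < l u then |(s u v : ℝ) - σ (l v) u v| else 0) +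
      (if l u < l v then |(s v u : ℝ) - σ (l u) v u| else 0) +
      (if l v = l u then 1 else 0) + |(Φ v u : ℝ)| := by
    intro u v
    rw [hE]; beta_reduce
    rw [bf1]
    rcases lt_trichotomy (l v) (l u) with h | h | h
    · have h' : ¬ (l u < l v) := not_lt.2 h.le
      have h'' : ¬ (l v = l u) := h.ne
      rw [if_pos h, if_neg h', if_pos h, if_neg h', if_neg h'']
      have : ((s u v - (σ (l v) u v - 0 + Φ v u) : ℤ) : ℝ) =
          ((s u v : ℝ) - σ (l v) u v) - Φ v u := by push_cast; ring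
      rw [this]
      have := abs_sub ((s u v : ℝ) - σ (l v) u v) (Φ v u : ℝ)
      linarith
    · have h1 : ¬ (l v < l u) := by rw [h]; exact lt_irrefl _
      have h2 : ¬ (l u < l v) := by rw [h]; exact lt_irrefl _
      rw [if_neg h1, if_neg h2, if_neg h1, if_neg h2, if_pos h]
      have : ((s u v - (0 - 0 + Φ v u) : ℤ) : ℝ) = (s u v : ℝ) - Φ v u := by push_cast; ring
      rw [this]
      have h3 := abs_sub (s u v : ℝ) (Φ v u : ℝ)
      have h4 : |(s u v : ℝ)| ≤ 1 := by
        rcases hs1 u v with h | h | h <;> simp [h]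
      linarith
    · have h' : ¬ (l v < l u) := not_lt.2 h.le
      have h'' : ¬ (l v = l u) := h.ne'
      rw [if_neg h', if_pos h, if_neg h', if_pos h, if_neg h'']
      have : ((s u v - (0 - σ (l u) v u + Φ v u) : ℤ) : ℝ) =
          - ((s v u : ℝ) - σ (l u) v u) - Φ v u := by
        rw [hsk u v]; push_cast; ring
      rw [this]
      have := abs_sub (- ((s v u : ℝ) - σ (l u) v u)) (Φ v u : ℝ)
      rw [abs_neg] at this
      linarith
  -- the sum of the erased entries
  have hLsum : ∑ i, ∑ x ∈ X' i, ∑ y ∈ Y i, |(s x y : ℝ) - σ i x y| = L := by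
    rw [hL]
    apply Finset.sum_congr rfl; intro i _
    apply Finset.sum_congr rfl; intro x _
    have := g4 i x
    have h : ((∑ y ∈ Y i, |s x y - σ i x y| : ℤ) : ℝ) = ((|∑ y ∈ Y i, s x y| : ℤ) : ℝ) := by
      rw [this]
    push_cast at h
    rw [h]
    push_cast
    rfl
  have hS1 : ∑ u, ∑ v, (if l v < l u then |(s u v : ℝ) - σ (l v) u v| else 0) = L := by
    rw [sum_labels l (fun i u v => |(s u v : ℝ) - σ i u v|)]
    exact hLsum
  have hS2 : ∑ u, ∑ v, (if l u < l v then |(s v u : ℝ) - σ (l u) v u| else 0) = L := by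
    rw [Finset.sum_comm]; exact hS1
  have hS3 : ∑ u, ∑ v, (if l v = l u then (1 : ℝ) else 0) = C := by
    rw [hC]
    have : ∀ u, ∑ v, (if l v = l u then (1 : ℝ) else 0) = m (l u) := by
      intro u
      rw [hm]; simp
    rw [Finset.sum_congr rfl (fun u _ => this u), ← sum_labels' l (fun i _ => m i)]
    apply Finset.sum_congr rfl; intro i _
    rw [Finset.sum_const, nsmul_eq_mul, ← hm]; ring
  have hS4 : ∑ u, ∑ v, |(Φ v u : ℝ)| ≤ ∑ i, m i * Real.sqrt (3 * m i * N i) + 2 * (B + L) := by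
    have e1 : ∀ a b, |(Φ a b : ℝ)| ≤ ∑ i, |((∑ x ∈ X' i, F i x a b : ℤ) : ℝ)| := by
      intro a b
      have : Φ a b = ∑ i, ∑ x ∈ X' i, F i x a b := by
        rw [hΦ]; beta_reduce
        rw [hφ1]; beta_reduce
        rw [Finset.sum_comm]
        apply Finset.sum_congr rfl; intro i _
        symm
        apply Finset.sum_subset (Finset.subset_univ _)
        intro x _ hx
        by_contra hne
        exact hx (f2 _ _ _ _ hne).1
      rw [this, Int.cast_sum]
      exact Finset.abs_sum_le_sum_abs _ _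
    have e2 : ∑ u, ∑ v, |(Φ v u : ℝ)| ≤ ∑ i, ∑ a, ∑ b, |((∑ x ∈ X' i, F i x a b : ℤ) : ℝ)| := by
      rw [Finset.sum_comm]
      calc ∑ v, ∑ u, |(Φ v u : ℝ)| ≤
          ∑ v, ∑ u, ∑ i, |((∑ x ∈ X' i, F i x v u : ℤ) : ℝ)| := by
            apply Finset.sum_le_sum; intro a _
            apply Finset.sum_le_sum; intro b _
            exact e1 a b
        _ = _ := by
            have : ∀ v : V, ∑ u, ∑ i, |((∑ x ∈ X' i, F i x v u : ℤ) : ℝ)| =
                ∑ i, ∑ u, |((∑ x ∈ X' i, F i x v u : ℤ) : ℝ)| := fun v => Finset.sum_comm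
            rw [Finset.sum_congr rfl (fun v _ => this v), Finset.sum_comm]
    refine e2.trans ?_
    have e3 : ∀ i, ∑ a, ∑ b, |((∑ x ∈ X' i, F i x a b : ℤ) : ℝ)| ≤
        m i * Real.sqrt (3 * m i * N i) +
          2 * (∑ b ∈ Y i, |((∑ x ∈ X' i, s x b : ℤ) : ℝ)| +
            ∑ x ∈ X' i, ∑ b ∈ Y i, |(s x b : ℝ) - σ i x b|) := by
      intro i
      have h5 := f5 i
      rw [← hm, ← hN] at h5
      refine h5.trans ?_
      have h6 : ∑ b ∈ Y i, |((∑ x ∈ X' i, σ i x b : ℤ) : ℝ)| ≤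
          ∑ b ∈ Y i, |((∑ x ∈ X' i, s x b : ℤ) : ℝ)| +
            ∑ x ∈ X' i, ∑ b ∈ Y i, |(s x b : ℝ) - σ i x b| := by
        rw [Finset.sum_comm (s := X' i), ← Finset.sum_add_distrib]
        apply Finset.sum_le_sum; intro b _
        have h7 : ((∑ x ∈ X' i, σ i x b : ℤ) : ℝ) = ((∑ x ∈ X' i, s x b : ℤ) : ℝ) -
            ∑ x ∈ X' i, ((s x b : ℝ) - σ i x b) := by
          rw [Finset.sum_sub_distrib]; push_cast; ring
        rw [h7]
        have h8 := abs_sub ((∑ x ∈ X' i, s x b : ℤ) : ℝ) (∑ x ∈ X' i, ((s x b : ℝ) - σ i x b))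
        have h9 := Finset.abs_sum_le_sum_abs (fun x => (s x b : ℝ) - σ i x b) (X' i)
        linarith
      linarith
    refine (Finset.sum_le_sum (fun i _ => e3 i)).trans ?_
    rw [Finset.sum_add_distrib, ← Finset.mul_sum, Finset.sum_add_distrib, hLsum]
    have e4 : ∑ i, ∑ b ∈ Y i, |((∑ x ∈ X' i, s x b : ℤ) : ℝ)| = B := by
      rw [hB, ← sum_labels' l (fun i b => |((∑ x ∈ X' i, s x b : ℤ) : ℝ)|)]
    rw [e4]
  have hEsum : ((∑ a, ∑ b, |E a b| : ℤ) : ℝ) ≤ 4 * L + C +
      ∑ i, m i * Real.sqrt (3 * m i * N i) + 2 * B := by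
    push_cast
    refine (Finset.sum_le_sum (fun u _ => Finset.sum_le_sum (fun v _ => absE u v))).trans ?_
    simp only [Finset.sum_add_distrib]
    rw [hS1, hS2, hS3]
    linarith
  -- the saving
  set zz : Fin r → V → ℝ := fun i x => ∑ v, iZ (Y i) (σ i x) v with hzz
  have zz0 : ∀ i x, 0 ≤ zz i x := by
    intro i x
    rw [hzz]
    apply Finset.sum_nonneg; intro v _
    unfold iZ; split_ifs <;> norm_num
  have zzm : ∀ i x, m i = 0 → zz i x = 0 := by
    intro i x h
    rw [hm] at h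
    have h' : (univ.filter (fun y => l y = i)) = ∅ := by
      rw [← Finset.card_eq_zero]; exact_mod_cast h
    rw [hzz]
    apply Finset.sum_eq_zero; intro v _
    unfold iZ
    rw [if_neg]
    rintro ⟨hv, _⟩
    rw [hY] at hv
    beta_reduce at hv
    rw [h'] at hv
    simp at hv
  have zzlow : ∀ i, ∀ x, ∑ y ∈ Y i, (if s x y = 0 then (1 : ℝ) else 0) ≤ zz i x := by
    intro i x
    rw [hzz]; beta_reduce
    rw [← Finset.sum_subset (Finset.subset_univ (Y i))]
    · apply Finset.sum_le_sum; intro y hy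
      unfold iZ
      by_cases h : s x y = 0
      · rw [if_pos h, if_pos ⟨hy, g5 i x y h⟩]
      · rw [if_neg h]; split_ifs <;> norm_num
    · intro v _ hv
      unfold iZ
      rw [if_neg (fun h => hv h.1)]
  set W : ℝ := ∑ i, ∑ x ∈ X' i, zz i x with hW
  have hWA : A ≤ W := by
    have w1 : ∑ u, ∑ v, (if l v < l u then (if s u v = 0 then (1 : ℝ) else 0) else 0) ≤ W := by
      rw [sum_labels l (fun _ u v => if s u v = 0 then (1 : ℝ) else 0)]
      rw [hW]
      apply Finset.sum_le_sum; intro i _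
      apply Finset.sum_le_sum; intro x _
      exact zzlow i x
    have w2 : ∑ u, ∑ v, (if l v < l u then (if s u v = 0 then (1 : ℝ) else 0) else 0) =
        ∑ u, ∑ v, (if l u < l v then (if s u v = 0 then (1 : ℝ) else 0) else 0) := by
      rw [Finset.sum_comm]
      apply Finset.sum_congr rfl; intro u _
      apply Finset.sum_congr rfl; intro v _
      have : (s v u = 0) ↔ (s u v = 0) := by
        rw [hsk u v]; omega
      simp only [this]
    have w3 : ∑ u, ∑ v, (if l v = l u then (if s u v = 0 then (1 : ℝ) else 0) else 0) ≤ C := by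
      rw [← hS3]
      apply Finset.sum_le_sum; intro u _
      apply Finset.sum_le_sum; intro v _
      split_ifs <;> norm_num
    have w4 : (∑ u, ∑ v, (if l v < l u then (if s u v = 0 then (1 : ℝ) else 0) else 0)) +
        (∑ u, ∑ v, (if l u < l v then (if s u v = 0 then (1 : ℝ) else 0) else 0)) +
        (∑ u, ∑ v, (if l v = l u then (if s u v = 0 then (1 : ℝ) else 0) else 0)) =
        ∑ u, ∑ v, (if s u v = 0 then (1 : ℝ) else 0) := by
      rw [← Finset.sum_add_distrib, ← Finset.sum_add_distrib]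
      apply Finset.sum_congr rfl; intro u _
      rw [← Finset.sum_add_distrib, ← Finset.sum_add_distrib]
      apply Finset.sum_congr rfl; intro v _
      rcases lt_trichotomy (l v) (l u) with h | h | h
      · have h' : ¬ (l u < l v) := not_lt.2 h.le
        have h'' : ¬ (l v = l u) := h.ne
        rw [if_pos h, if_neg h', if_neg h'']; ring
      · have h1 : ¬ (l v < l u) := by rw [h]; exact lt_irrefl _
        have h2 : ¬ (l u < l v) := by rw [h]; exact lt_irrefl _
        rw [if_neg h1, if_neg h2, if_pos h]; ring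
      · have h' : ¬ (l v < l u) := not_lt.2 h.le
        have h'' : ¬ (l v = l u) := h.ne'
        rw [if_pos h, if_neg h', if_neg h'']; ring
    linarith
  have hsave : A ^ 2 / n ^ 2 ≤ ∑ i, ∑ x ∈ X' i, (zz i x) ^ 2 / (2 * m i) := by
    have hn2 : 0 < n ^ 2 := by positivity
    set t : ℝ := 2 * W / n ^ 2 with ht
    have v1 : ∀ i, ∀ x, t * zz i x - t ^ 2 * m i / 2 ≤ (zz i x) ^ 2 / (2 * m i) := by
      intro i x
      have hmi : 0 ≤ m i := by rw [hm]; exact Nat.cast_nonneg _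
      rcases hmi.eq_or_lt with h | h
      · rw [zzm i x h.symm, ← h]; simp
      · rw [le_div_iff₀ (by positivity)]
        nlinarith [sq_nonneg (zz i x - t * m i)]
    have v2 : ∑ i, ∑ x ∈ X' i, (t * zz i x - t ^ 2 * m i / 2) =
        t * W - t ^ 2 / 2 * ∑ i, N i * m i := by
      rw [hW, Finset.mul_sum, Finset.mul_sum, ← Finset.sum_sub_distrib]
      apply Finset.sum_congr rfl; intro i _
      rw [Finset.sum_sub_distrib, ← Finset.mul_sum, Finset.sum_const, nsmul_eq_mul, ← hN]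
      ring
    have v3 : t * W - t ^ 2 / 2 * ∑ i, N i * m i ≤ ∑ i, ∑ x ∈ X' i, (zz i x) ^ 2 / (2 * m i) := by
      rw [← v2]
      apply Finset.sum_le_sum; intro i _
      apply Finset.sum_le_sum; intro x _
      exact v1 i x
    have v4 : t ^ 2 / 2 * ∑ i, N i * m i ≤ t ^ 2 / 2 * (n ^ 2 / 2) :=
      mul_le_mul_of_nonneg_left hpairs (by positivity)
    have v5 : t * W - t ^ 2 / 2 * (n ^ 2 / 2) = W ^ 2 / n ^ 2 := by
      rw [ht]; field_simp; ring
    have v6 : A ^ 2 / n ^ 2 ≤ W ^ 2 / n ^ 2 := by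
      apply div_le_div_of_nonneg_right _ hn2.le
      exact pow_le_pow_left₀ hA0 hWA 2
    linarith
  refine ⟨fun x a b => φ1 x a b + φ2 x a b, ?_, ?_, ?_, ?_⟩
  · intro x a b
    beta_reduce
    rw [skew1 x a b, c1 x a b]; ring
  · intro x a b h
    beta_reduce at h
    by_cases h1 : φ1 x a b = 0
    · rw [h1, zero_add] at h
      exact c2 x a b h
    · exact supp1' x a b h1
  · intro u v
    rw [bf_add, c3, hE]; beta_reduce; ring
  · have k1 : ∑ x, ∑ a, ∑ b, max (φ1 x a b + φ2 x a b) 0 ≤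
        ∑ x, ∑ a, ∑ b, max (φ1 x a b) 0 + ∑ x, ∑ a, ∑ b, max (φ2 x a b) 0 := by
      rw [← Finset.sum_add_distrib]
      apply Finset.sum_le_sum; intro x _
      rw [← Finset.sum_add_distrib]
      apply Finset.sum_le_sum; intro a _
      rw [← Finset.sum_add_distrib]
      apply Finset.sum_le_sum; intro b _
      omega
    have k2 : ((∑ x, ∑ a, ∑ b, max (φ1 x a b) 0 : ℤ) : ℝ) ≤
        ∑ i, (N i * m i / 2 - ∑ x ∈ X' i, (zz i x) ^ 2 / (2 * m i) +
          m i * Real.sqrt (3 * N i)) := by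
      have h1 : ∀ x a b, max (φ1 x a b) 0 ≤ ∑ i, max (F i x a b) 0 := by
        intro x a b
        apply max_le
        · apply Finset.sum_le_sum; intro i _; exact le_max_left _ _
        · apply Finset.sum_nonneg; intro i _; exact le_max_right _ _
      have h2 : ∑ x, ∑ a, ∑ b, max (φ1 x a b) 0 ≤ ∑ i, ∑ x, ∑ a, ∑ b, max (F i x a b) 0 := by
        conv_rhs => rw [Finset.sum_comm]
        apply Finset.sum_le_sum; intro x _
        conv_rhs => rw [Finset.sum_comm]
        apply Finset.sum_le_sum; intro a _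
        conv_rhs => rw [Finset.sum_comm]
        apply Finset.sum_le_sum; intro b _
        exact h1 x a b
      have h3 : ∀ i, ∑ x, ∑ a, ∑ b, max (F i x a b) 0 =
          ∑ x ∈ X' i, ∑ a, ∑ b, max (F i x a b) 0 := by
        intro i
        symm
        apply Finset.sum_subset (Finset.subset_univ _)
        intro x _ hx
        apply Finset.sum_eq_zero; intro a _
        apply Finset.sum_eq_zero; intro b _
        have : F i x a b = 0 := by
          by_contra hne
          exact hx (f2 _ _ _ _ hne).1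
        rw [this]; rfl
      rw [Finset.sum_congr rfl (fun i _ => h3 i)] at h2
      have h4 : ((∑ x, ∑ a, ∑ b, max (φ1 x a b) 0 : ℤ) : ℝ) ≤
          ((∑ i, ∑ x ∈ X' i, ∑ a, ∑ b, max (F i x a b) 0 : ℤ) : ℝ) := by exact_mod_cast h2
      refine h4.trans ?_
      rw [Int.cast_sum]
      apply Finset.sum_le_sum; intro i _
      have h5 := f4 i
      rw [← hm, ← hN] at h5
      rw [Int.cast_sum]
      refine le_trans (le_of_eq ?_) h5
      apply Finset.sum_congr rfl; intro x _
      rw [Int.cast_sum]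
      apply Finset.sum_congr rfl; intro a _
      rw [Int.cast_sum]
    have k5 : ∑ i, (N i * m i / 2 - ∑ x ∈ X' i, (zz i x) ^ 2 / (2 * m i) +
          m i * Real.sqrt (3 * N i)) = ∑ i, (N i * m i / 2 + m i * Real.sqrt (3 * N i)) -
          ∑ i, ∑ x ∈ X' i, (zz i x) ^ 2 / (2 * m i) := by
      rw [← Finset.sum_sub_distrib]
      apply Finset.sum_congr rfl; intro i _
      ring
    have k3 : ((∑ x, ∑ a, ∑ b, max (φ1 x a b + φ2 x a b) 0 : ℤ) : ℝ) ≤
        ((∑ x, ∑ a, ∑ b, max (φ1 x a b) 0 : ℤ) : ℝ) +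
          ((∑ x, ∑ a, ∑ b, max (φ2 x a b) 0 : ℤ) : ℝ) := by
      rw [← Int.cast_add]
      exact Int.cast_le.2 k1
    have k4 : 2 * ((∑ x, ∑ a, ∑ b, max (φ2 x a b) 0 : ℤ) : ℝ) ≤
        ((∑ a, ∑ b, |E a b| : ℤ) : ℝ) := by
      have : ((2 * ∑ x, ∑ a, ∑ b, max (φ2 x a b) 0 : ℤ) : ℝ) ≤
        ((∑ a, ∑ b, |E a b| : ℤ) : ℝ) := Int.cast_le.2 c4
      rw [Int.cast_mul] at this
      exact_mod_cast this
    linarith

end Pool.Agent.Helper83.TI2
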